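import Pool.Agent.H.MP_718c62_al.C

set_option autoImplicit false

namespace Pool.Agent.Results.MP_718c62_al.No

open MvPolynomial CategoryTheory

/-- The exponents of the monomials of the Stanley space `u K[Z]`. -/
def space {σ : Type} (u : σ →₀ ℕ) (Z : Finset σ) : Set (σ →₀ ℕ) :=
  {a | ∃ m : σ →₀ ℕ, m.support ⊆ Z ∧ a = u + m}

/-- The spaces `u i K[Z i]` are pairwise disjoint and their union is `E`. -/
def IsStanley {σ : Type} (E : Set (σ →₀ ℕ)) {r : ℕ} (u : Fin r → σ →₀ ℕ) (Z : Fin r → Finset σ) :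
    Prop :=
  (∀ i j, i ≠ j → Disjoint (space (u i) (Z i)) (space (u j) (Z j))) ∧
    ⋃ i, space (u i) (Z i) = E

/-- The Stanley depth of `S / I`: the largest `d` such that some Stanley decomposition of the
monomials outside `I` has all sets `Z i` of size at least `d`. -/
noncomputable def sdepth {σ K : Type} [Field K] (I : Ideal (MvPolynomial σ K)) : ℕ :=
  sSup {d | ∃ (r : ℕ) (u : Fin r → σ →₀ ℕ) (Z : Fin r → Finset σ),
    IsStanley {a | monomial a (1 : K) ∉ I} u Z ∧ ∀ i, d ≤ (Z i).card}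

/-- The projective dimension of `S / I`. -/
noncomputable def pdim {S : Type} [CommRing S] (I : Ideal S) : WithBot ℕ∞ :=
  projectiveDimension (ModuleCat.of S (S ⧸ I))

theorem result (K : Type) [Field K] [CharP K 2] : ∃ G : Finset (Fin 10 →₀ ℕ),
    IsAntichain (· ≤ ·) (G : Set (Fin 10 →₀ ℕ)) ∧ G.card = 6 ∧
    ∀ I : Ideal (MvPolynomial (Fin 10) K), I = Ideal.span ((fun a => monomial a (1 : K)) '' G) →
      pdim I = 4 ∧ sdepth I = 7 := by
  classical
  have hM : ∀ i j, Spd.M i ⊆ Spd.M j → i = j := by decide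
  have hi : ∀ i j, Spd.ind (Spd.M i) ≤ Spd.ind (Spd.M j) → i = j := fun i j h =>
    hM i j (by rwa [Spd.ind_le, Spd.supp_ind] at h)
  refine ⟨Finset.univ.image fun i => Spd.ind (Spd.M i), ?_, ?_, fun I hI => ?_⟩
  · rw [Finset.coe_image]
    rintro _ ⟨i, -, rfl⟩ _ ⟨j, -, rfl⟩ h h'
    exact h (hi i j h' ▸ rfl)
  · rw [Finset.card_image_of_injective _ fun i j h => hi i j h.le]
    rfl
  obtain rfl : I = Spd.IL K (List.ofFn Spd.M) := by
    rw [hI, Spd.IL, show {F | F ∈ List.ofFn Spd.M} = Set.range Spd.M from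
      Set.ext fun _ => List.mem_ofFn' _ _, ← Set.range_comp, Finset.coe_image, Finset.coe_univ,
      Set.image_univ]
    rfl
  have e := LinearMap.exact_subtype_mkQ (Spd.IL K (List.ofFn Spd.M))
  refine ⟨le_antisymm ((projectiveDimension_le_iff _ 4).2 (PdOne.pd3 _ _ e
    (Submodule.injective_subtype _) (Submodule.mkQ_surjective _) Spd.upper PdOne.pd_proj))
    ((projectiveDimension_ge_iff _ 4).2 fun h => Spd.lower (PdOne.pd1 _ _ e
      (Submodule.injective_subtype _) (Submodule.mkQ_surjective _) PdOne.pd_proj h)),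
    IsGreatest.csSup_eq ⟨⟨60, fun i => Spd.ind (Spd.bits (Spd.dA i)),
      fun i => Spd.bits (Spd.dB i), ⟨fun i j h => Set.disjoint_left.2 fun a h1 h2 => h ?_,
        Set.ext fun a => ?_⟩, fun i => (Spd.chk' i).2.ge⟩, ?_⟩⟩
  · have h3 : _ ≤ 1 := (Spd.part a.support).le.trans (by split_ifs <;> decide)
    exact Finset.card_le_one.1 h3 i (Finset.mem_filter.2 ⟨Finset.mem_univ _,
      (Spd.space (Spd.chk' i).1 a).1 h1⟩) j (Finset.mem_filter.2 ⟨Finset.mem_univ _,
        (Spd.space (Spd.chk' j).1 a).1 h2⟩)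
  · have h3 := Spd.part a.support
    rw [Set.mem_iUnion, Set.mem_ofPred_eq, Spd.mono_mem]
    refine ⟨fun ⟨i, h1⟩ h2 => ?_, fun h2 => ?_⟩
    · rw [if_pos h2, Finset.card_eq_zero, Finset.filter_eq_empty_iff] at h3
      exact h3 (Finset.mem_univ i) ((Spd.space (Spd.chk' i).1 a).1 h1)
    · rw [if_neg h2] at h3
      obtain ⟨i, hi⟩ := Finset.card_pos.1 (h3.ge.trans_lt' one_pos)
      exact ⟨i, (Spd.space (Spd.chk' i).1 a).2 (Finset.mem_filter.1 hi).2⟩
  · rintro d ⟨r, u, Z, ⟨-, h1⟩, h2⟩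
    have h3 : (0 : Fin 10 →₀ ℕ) ∈ ⋃ i, space (u i) (Z i) := by
      rw [h1, Set.mem_ofPred_eq, Spd.mono_mem]
      decide
    obtain ⟨i, -⟩ := Set.mem_iUnion.1 h3
    by_contra h4
    obtain ⟨j, hj⟩ := Spd.big (Z i) ((not_le.1 h4).trans_le (h2 i))
    have h5 : u i + Spd.ind (Z i) ∈ ⋃ i, space (u i) (Z i) :=
      Set.mem_iUnion.2 ⟨i, _, (Spd.supp_ind _).le, rfl⟩
    rw [h1, Set.mem_ofPred_eq, Spd.mono_mem] at h5
    refine h5 ⟨j, hj.trans ?_⟩
    rw [Finsupp.support_add_eq_union, Spd.supp_ind]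
    exact Finset.subset_union_right

end Pool.Agent.Results.MP_718c62_al.No
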